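import Pool.Agent.Lib_helper1.Fms.Ranges
import Pool.Agent.Lib_helper64.FMS.Uniform

/-!
# The estimate for all `m` and `s`
-/

namespace Pool.Agent.Lib_helper1.Fms

open Finset Pool.Agent.FMS

theorem choose_le_of_mem {N m s : ℕ} (h : N ∈ orders m s) : N ≤ (m + s).choose m := by
  have h1 := card_le_of_mem h
  have h2 : (m + s).choose m = (m + s).choose s := Nat.choose_symm_of_eq_add (by ring)
  rw [h2]
  exact h1

/-! ### The range `s ≥ 2 ^ (m ^ 2)` -/

/-- `e ^ 3 ≤ 27` in the form needed. -/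
theorem pow_quot {m x : ℕ} (hm : 2 ≤ m) (hx : m ^ 2 ≤ x) :
    ((x + m + 2) * (m ^ 2 + m)) ^ m ≤ 27 * (x * m ^ 2) ^ m := by
  have hm0 : (0 : ℝ) < m := by
    have : 0 < m := by omega
    exact_mod_cast this
  have hm2 : (2 : ℝ) ≤ m := by exact_mod_cast hm
  have hxr : ((m : ℝ)) ^ 2 ≤ x := by exact_mod_cast hx
  have hx0 : (0 : ℝ) < x := lt_of_lt_of_le (by positivity) hxr
  have h1 : (((x : ℝ) + m + 2) * ((m : ℝ) ^ 2 + m)) ^ m ≤ 27 * ((x : ℝ) * (m : ℝ) ^ 2) ^ m := by
    have e1 : ((x : ℝ) + m + 2) * ((m : ℝ) ^ 2 + m) =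
        ((m + 2) / x + 1) * (1 / m + 1) * ((x : ℝ) * (m : ℝ) ^ 2) := by
      field_simp
      ring
    rw [e1, mul_pow]
    refine mul_le_mul_of_nonneg_right ?_ (by positivity)
    have h2 : ((m : ℝ) + 2) / x + 1 ≤ Real.exp (2 / m) := by
      refine (Real.add_one_le_exp _).trans (Real.exp_le_exp.2 ?_)
      rw [div_le_div_iff₀ hx0 hm0]
      nlinarith
    have h3 : 1 / (m : ℝ) + 1 ≤ Real.exp (1 / m) := Real.add_one_le_exp _
    calc ((((m : ℝ) + 2) / x + 1) * (1 / m + 1)) ^ m ≤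
          (Real.exp (2 / m) * Real.exp (1 / m)) ^ m := by
          exact pow_le_pow_left₀ (by positivity)
            (mul_le_mul h2 h3 (by positivity) (Real.exp_pos _).le) m
      _ = Real.exp 1 ^ 3 := by
          rw [← Real.exp_add, ← Real.exp_nat_mul, ← Real.exp_nat_mul]
          congr 1
          field_simp
          norm_num
      _ ≤ 3 ^ 3 := by
          have h4 := Real.exp_one_lt_d9
          exact pow_le_pow_left₀ (Real.exp_pos 1).le (by linarith) 3
      _ = 27 := by norm_num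
  exact_mod_cast h1

theorem regime_b {m s : ℕ} (hm : 257 ≤ m) (hs : 2 ^ (m ^ 2) ≤ s) :
    (m + s).choose m ≤ 27 * (2 ^ 26 * m ^ 15) * f m s := by
  have hc := clog_small hm
  set c := Nat.clog 2 m with hcdef
  have hcm : m ≤ 2 ^ c := Nat.le_pow_clog one_lt_two m
  have hmm : m * 1 ≤ m * m := Nat.mul_le_mul_left _ (by omega)
  have hmm2 : m ≤ m ^ 2 := by rw [sq]; omega
  obtain ⟨N, b, hN, hb, hNb⟩ := regime_a hm hmm2 (Nat.lt_two_pow_self).le
  set K := 2 ^ 26 * m ^ 15 with hK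
  have hNle : N ≤ (2 * m ^ 2) ^ m := by
    calc N ≤ (m + m ^ 2).choose m := choose_le_of_mem (hb.mem_orders hN)
      _ ≤ (m + m ^ 2) ^ m := Nat.choose_le_pow _ _
      _ ≤ (2 * m ^ 2) ^ m := Nat.pow_le_pow_left (by omega) m
  set E := m.factorial * N with hE
  have hE0 : 0 < E := Nat.mul_pos (Nat.factorial_pos m) hN
  set W := E * (m ^ 2 + m) with hW
  have hW0 : m ^ 2 + m ≤ W := Nat.le_mul_of_pos_left _ hE0
  have hWpos : 0 < W := lt_of_lt_of_le (by positivity) hW0
  have hWle : W * (2 * m ^ 2) + m ^ 2 ≤ s := by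
    have h1 : W ≤ 2 ^ (c * m) * 2 ^ ((1 + 2 * c) * m) * 2 ^ (1 + 2 * c) := by
      rw [hW, hE]
      refine Nat.mul_le_mul (Nat.mul_le_mul ?_ ?_) ?_
      · calc m.factorial ≤ m ^ m := Nat.factorial_le_pow m
          _ ≤ (2 ^ c) ^ m := Nat.pow_le_pow_left hcm m
          _ = 2 ^ (c * m) := by rw [← pow_mul]
      · calc N ≤ (2 * m ^ 2) ^ m := hNle
          _ ≤ (2 * (2 ^ c) ^ 2) ^ m :=
            Nat.pow_le_pow_left (Nat.mul_le_mul_left _ (Nat.pow_le_pow_left hcm 2)) m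
          _ = 2 ^ ((1 + 2 * c) * m) := by
            rw [← pow_mul, ← pow_succ', ← pow_mul]
            congr 1
            ring
      · calc m ^ 2 + m ≤ 2 * m ^ 2 := by omega
          _ ≤ 2 * (2 ^ c) ^ 2 := Nat.mul_le_mul_left _ (Nat.pow_le_pow_left hcm 2)
          _ = 2 ^ (1 + 2 * c) := by
            rw [← pow_mul, ← pow_succ']
            congr 1
            ring
    have h2 : 2 * m ^ 2 ≤ 2 ^ (1 + 2 * c) := by
      calc 2 * m ^ 2 ≤ 2 * (2 ^ c) ^ 2 := Nat.mul_le_mul_left _ (Nat.pow_le_pow_left hcm 2)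
        _ = 2 ^ (1 + 2 * c) := by
          rw [← pow_mul, ← pow_succ']
          congr 1
          ring
    have h3 : m ^ 2 ≤ W * (2 * m ^ 2) := by
      have h4 : 1 * (2 * m ^ 2) ≤ W * (2 * m ^ 2) := Nat.mul_le_mul_right _ hWpos
      omega
    have hcm6 : m * (18 * c + 12) ≤ m * m := Nat.mul_le_mul_left _ hc
    calc W * (2 * m ^ 2) + m ^ 2 ≤ 2 * (W * (2 * m ^ 2)) := by omega
      _ ≤ 2 * ((2 ^ (c * m) * 2 ^ ((1 + 2 * c) * m) * 2 ^ (1 + 2 * c)) * 2 ^ (1 + 2 * c)) :=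
          Nat.mul_le_mul_left _ (Nat.mul_le_mul h1 h2)
      _ = 2 ^ (1 + (c * m + (1 + 2 * c) * m + (1 + 2 * c) + (1 + 2 * c))) := by
          rw [← pow_add, ← pow_add, ← pow_add, pow_add 2 1, pow_one]
      _ ≤ 2 ^ (m ^ 2) := by
          apply Nat.pow_le_pow_right (by norm_num)
          have e1 : 1 + (c * m + (1 + 2 * c) * m + (1 + 2 * c) + (1 + 2 * c)) =
              3 * (m * c) + m + 3 + 4 * c := by ring
          have e2 : m * (18 * c + 12) = 18 * (m * c) + 12 * m := by ring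
          rw [e1, sq]
          omega
      _ ≤ s := hs
  obtain ⟨y, hy⟩ : ∃ y, y = (s - m ^ 2) / W := ⟨_, rfl⟩
  have hyW : y * W ≤ s - m ^ 2 := by
    rw [hy]
    exact Nat.div_mul_le_self _ _
  have hyW2 : s - m ^ 2 < (y + 1) * W := by
    rw [hy, mul_comm]
    exact Nat.lt_mul_div_succ _ hWpos
  have hy2 : 2 * m ^ 2 ≤ y := by
    rw [hy, Nat.le_div_iff_mul_le hWpos, mul_comm]
    omega
  obtain ⟨x, hx⟩ : ∃ x, x + m = y := ⟨y - m, by omega⟩
  have hxm : m ^ 2 ≤ x := by omega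
  have hs2 : m ^ 2 ≤ s := by omega
  -- the number of summands
  have hsum : (1 + (x + m) * (m.factorial * N)) * m ^ 2 + m * ((x + m) * (m.factorial * N)) ≤
      s := by
    rw [← hE, hx]
    calc (1 + y * E) * m ^ 2 + m * (y * E) = y * W + m ^ 2 := by rw [hW]; ring
      _ ≤ s := by omega
  have h1 := scale_ap hN hb x
  have h2 : N * (x * E) ^ m ≤ f m s := by
    refine h1.trans (le_f ?_)
    have h3 : f m ((1 + (x + m) * (m.factorial * N)) * m ^ 2 +
        m * ((x + m) * (m.factorial * N))) ∈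
        orders m ((1 + (x + m) * (m.factorial * N)) * m ^ 2 +
          m * ((x + m) * (m.factorial * N))) :=
      Nat.sSup_mem ⟨1, one_mem_orders _ _⟩ (bddAbove_orders _ _)
    exact orders_mono le_rfl hsum h3
  -- comparison
  have h4 : m + s ≤ (x + m + 2) * W := by
    have h5 : (x + m + 2) * W = (y + 1) * W + W := by rw [← hx]; ring
    omega
  have h5 : m.factorial * (m + s).choose m ≤ (m + s) ^ m := by
    rw [← Nat.descFactorial_eq_factorial_mul_choose]
    exact Nat.descFactorial_le_pow _ _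
  have h6 : (m ^ 2) ^ m ≤ m.factorial * (m + m ^ 2).choose m := by
    rw [← Nat.descFactorial_eq_factorial_mul_choose]
    refine le_trans ?_ (Nat.pow_sub_le_descFactorial _ _)
    exact Nat.pow_le_pow_left (by omega) m
  have h7 : m.factorial * (m + s).choose m ≤
      m.factorial * (27 * K * f m s) := by
    calc m.factorial * (m + s).choose m ≤ (m + s) ^ m := h5
      _ ≤ ((x + m + 2) * W) ^ m := Nat.pow_le_pow_left h4 m
      _ = E ^ m * ((x + m + 2) * (m ^ 2 + m)) ^ m := by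
          rw [← mul_pow, hW]
          congr 1
          ring
      _ ≤ E ^ m * (27 * (x * m ^ 2) ^ m) := Nat.mul_le_mul_left _ (pow_quot (by omega) hxm)
      _ = 27 * (x * E) ^ m * (m ^ 2) ^ m := by
          rw [mul_pow, mul_pow]
          ring
      _ ≤ 27 * (x * E) ^ m * (m.factorial * (m + m ^ 2).choose m) := Nat.mul_le_mul_left _ h6
      _ ≤ 27 * (x * E) ^ m * (m.factorial * (K * N)) :=
          Nat.mul_le_mul_left _ (Nat.mul_le_mul_left _ hNb)
      _ = m.factorial * (27 * K * (N * (x * E) ^ m)) := by ring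
      _ ≤ m.factorial * (27 * K * f m s) :=
          Nat.mul_le_mul_left _ (Nat.mul_le_mul_left _ h2)
  exact Nat.le_of_mul_le_mul_left h7 (Nat.factorial_pos m)

/-! ### Small `m` -/

theorem small {m s : ℕ} (hm1 : 1 ≤ m) (hm : m ≤ 256) (hms : m ≤ s) :
    (m + s).choose m ≤ 512 ^ 256 * f m s := by
  set b := s / m + 1 with hb
  have h1 : s < m * b := Nat.lt_mul_div_succ s (by omega)
  have h2 : b ^ m ≤ f m s := by
    refine le_f (orders_mono le_rfl ?_ (digits m b (Nat.succ_pos _)))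
    rw [hb, Nat.add_sub_cancel]
    exact Nat.mul_div_le s m
  calc (m + s).choose m ≤ (m + s) ^ m := Nat.choose_le_pow _ _
    _ ≤ ((2 * m) * b) ^ m := by
        refine Nat.pow_le_pow_left ?_ m
        have : (2 * m) * b = 2 * (m * b) := by ring
        omega
    _ = (2 * m) ^ m * b ^ m := mul_pow _ _ _
    _ ≤ 512 ^ 256 * b ^ m := by
        refine Nat.mul_le_mul_right _ ?_
        calc (2 * m) ^ m ≤ 512 ^ m := Nat.pow_le_pow_left (by omega) m
          _ ≤ 512 ^ 256 := Nat.pow_le_pow_right (by norm_num) hm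
    _ ≤ 512 ^ 256 * f m s := Nat.mul_le_mul_left _ h2

/-- The estimate for `s ≥ m`. -/
theorem uniform_bound' : ∃ C : ℕ, ∀ m s : ℕ, 1 ≤ m → m ≤ s →
    (m + s).choose m ≤ C * m ^ 15 * f m s := by
  refine ⟨512 ^ 256, fun m s hm hms => ?_⟩
  have hC : 27 * 2 ^ 26 ≤ 512 ^ 256 := by
    calc 27 * 2 ^ 26 ≤ 512 ^ 4 := by norm_num
      _ ≤ 512 ^ 256 := Nat.pow_le_pow_right (by norm_num) (by norm_num)
  rcases Nat.lt_or_ge m 257 with h1 | h1
  · have h2 : 1 ≤ m ^ 15 := Nat.one_le_pow _ _ hm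
    calc (m + s).choose m ≤ 512 ^ 256 * f m s := small hm (by omega) hms
      _ = 512 ^ 256 * 1 * f m s := by rw [mul_one]
      _ ≤ 512 ^ 256 * m ^ 15 * f m s :=
          Nat.mul_le_mul_right _ (Nat.mul_le_mul_left _ h2)
  · have key : (m + s).choose m ≤ 27 * (2 ^ 26 * m ^ 15) * f m s := by
      rcases Nat.le_total s (2 ^ (m ^ 2)) with h2 | h2
      · obtain ⟨N, b, hN, hb, hNb⟩ := regime_a h1 hms h2
        refine hNb.trans ?_
        refine Nat.mul_le_mul ?_ (le_f (hb.mem_orders hN))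
        omega
      · exact regime_b h1 h2
    refine key.trans (Nat.mul_le_mul_right _ ?_)
    calc 27 * (2 ^ 26 * m ^ 15) = (27 * 2 ^ 26) * m ^ 15 := by ring
      _ ≤ 512 ^ 256 * m ^ 15 := Nat.mul_le_mul_right _ hC

/-- The estimate for all `m, s ≥ 1`. -/
theorem uniform_all : ∃ C : ℕ, ∀ m s : ℕ, 1 ≤ m → 1 ≤ s →
    (m + s).choose s ≤ C * (min m s) ^ 17 * f m s := by
  obtain ⟨C₁, h1⟩ := uniform_bound
  obtain ⟨C₂, h2⟩ := uniform_bound'
  refine ⟨C₁ + C₂, fun m s hm hs => ?_⟩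
  rcases Nat.le_total s m with h | h
  · rw [min_eq_right h]
    refine (h1 m s hs h).trans (Nat.mul_le_mul_right _ (Nat.mul_le_mul_right _ ?_))
    omega
  · have h4 : (m + s).choose s = (m + s).choose m := Nat.choose_symm_of_eq_add (by ring)
    rw [min_eq_left h, h4]
    have h3 : (m + s).choose m ≤ C₂ * m ^ 15 * f m s := h2 m s hm h
    refine h3.trans (Nat.mul_le_mul_right _ (Nat.mul_le_mul (by omega) ?_))
    exact Nat.pow_le_pow_right hm (by norm_num)

end Pool.Agent.Lib_helper1.Fms
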