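import Pool.Agent.Lib_helper1.Fms.Scale

/-!
# The range `s ≥ m`: choice of the parameters
-/

namespace Pool.Agent.Lib_helper1.Fms

open Finset Pool.Agent.FMS

/-! ### Quotients of binomial coefficients -/

theorem ratio1 (k s H : ℕ) :
    (k + H + s).choose (k + H) * (k + 1) ^ H ≤ (k + s).choose k * (k + H + s) ^ H := by
  induction H with
  | zero => simp
  | succ H ih =>
    have h1 : (k + H + 1 + s).choose (k + H + 1) * (k + H + 1) =
        (k + H + s).choose (k + H) * (k + H + s + 1) := by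
      have h2 := Nat.add_one_mul_choose_eq (k + H + s) (k + H)
      have h3 : k + H + 1 + s = k + H + s + 1 := by omega
      rw [h3, ← h2]
      ring
    have e1 : k + (H + 1) + s = k + H + 1 + s := by ring
    have e2 : k + (H + 1) = k + H + 1 := by ring
    rw [e1, e2]
    calc (k + H + 1 + s).choose (k + H + 1) * (k + 1) ^ (H + 1) =
        (k + H + 1 + s).choose (k + H + 1) * (k + 1) * (k + 1) ^ H := by ring
      _ ≤ (k + H + 1 + s).choose (k + H + 1) * (k + H + 1) * (k + 1) ^ H :=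
          Nat.mul_le_mul_right _ (Nat.mul_le_mul_left _ (by omega))
      _ = ((k + H + s).choose (k + H) * (k + 1) ^ H) * (k + H + s + 1) := by rw [h1]; ring
      _ ≤ ((k + s).choose k * (k + H + s) ^ H) * (k + H + s + 1) := Nat.mul_le_mul_right _ ih
      _ ≤ ((k + s).choose k * (k + H + 1 + s) ^ H) * (k + H + 1 + s) :=
          Nat.mul_le_mul (Nat.mul_le_mul_left _ (Nat.pow_le_pow_left (by omega) _)) (by omega)
      _ = (k + s).choose k * (k + H + 1 + s) ^ (H + 1) := by ring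

theorem ratio2 (k r D : ℕ) :
    (k + (r + D)).choose k * (r + 1) ^ D ≤ (k + r).choose k * (k + r + 1) ^ D := by
  induction D with
  | zero => simp
  | succ D ih =>
    have h1 : (k + (r + (D + 1))).choose k * (r + D + 1) =
        (k + (r + D)).choose k * (k + r + D + 1) := by
      have h2 := Nat.add_one_mul_choose_eq (k + (r + D)) (r + D)
      have h3 : (k + (r + D)).choose (r + D) = (k + (r + D)).choose k :=
        Nat.choose_symm_of_eq_add (by ring)
      have h4 : (k + (r + D) + 1).choose (r + D + 1) = (k + (r + (D + 1))).choose k := by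
        have h5 : k + (r + D) + 1 = k + (r + (D + 1)) := by omega
        rw [h5]
        exact Nat.choose_symm_of_eq_add (by omega)
      rw [h3, h4] at h2
      rw [← h2]
      ring
    have h8 : ((k + (r + (D + 1))).choose k * (r + 1)) * (r + D + 1) ≤
        ((k + (r + D)).choose k * (k + r + 1)) * (r + D + 1) := by
      calc ((k + (r + (D + 1))).choose k * (r + 1)) * (r + D + 1) =
          ((k + (r + (D + 1))).choose k * (r + D + 1)) * (r + 1) := by ring
        _ = (k + (r + D)).choose k * ((k + r + D + 1) * (r + 1)) := by rw [h1]; ring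
        _ ≤ (k + (r + D)).choose k * ((k + r + 1) * (r + D + 1)) := by
            refine Nat.mul_le_mul_left _ ?_
            nlinarith [Nat.zero_le (k * D)]
        _ = ((k + (r + D)).choose k * (k + r + 1)) * (r + D + 1) := by ring
    have h9 := Nat.le_of_mul_le_mul_right h8 (by omega)
    calc (k + (r + (D + 1))).choose k * (r + 1) ^ (D + 1) =
        ((k + (r + (D + 1))).choose k * (r + 1)) * (r + 1) ^ D := by ring
      _ ≤ ((k + (r + D)).choose k * (k + r + 1)) * (r + 1) ^ D := Nat.mul_le_mul_right _ h9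
      _ = ((k + (r + D)).choose k * (r + 1) ^ D) * (k + r + 1) := by ring
      _ ≤ ((k + r).choose k * (k + r + 1) ^ D) * (k + r + 1) := Nat.mul_le_mul_right _ ih
      _ = (k + r).choose k * (k + r + 1) ^ (D + 1) := by ring

theorem exp_le_four : Real.exp (6 / 5) ≤ 4 := by
  have h1 : Real.exp (6 / 5) ^ 5 ≤ 4 ^ 5 := by
    rw [← Real.exp_nat_mul]
    have h2 : ((5 : ℕ) : ℝ) * (6 / 5) = ((6 : ℕ) : ℝ) * 1 := by norm_num
    rw [h2, Real.exp_nat_mul]
    have h3 := Real.exp_one_lt_d9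
    have h4 : Real.exp 1 ≤ 3 := by linarith
    calc Real.exp 1 ^ 6 ≤ 3 ^ 6 := pow_le_pow_left₀ (Real.exp_pos 1).le h4 6
      _ ≤ 4 ^ 5 := by norm_num
  exact le_of_pow_le_pow_left₀ (by norm_num) (by norm_num) h1

/-- The loss from the smaller number of summands. -/
theorem ratio2' {k r D L : ℕ} (h : 5 * (k * D) ≤ 6 * (L * (r + 1))) :
    (k + (r + D)).choose k ≤ (k + r).choose k * 4 ^ L := by
  have h1 := ratio2 k r D
  have hr : (0 : ℝ) < (r : ℝ) + 1 := by positivity
  have h2 : (((k + (r + D)).choose k : ℕ) : ℝ) * ((r : ℝ) + 1) ^ D ≤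
      ((k + r).choose k : ℕ) * ((k : ℝ) + r + 1) ^ D := by exact_mod_cast h1
  have h3 : ((k : ℝ) + r + 1) ^ D ≤ ((r : ℝ) + 1) ^ D * 4 ^ L := by
    have e1 : (k : ℝ) + r + 1 = ((r : ℝ) + 1) * (k / (r + 1) + 1) := by
      field_simp
      ring
    rw [e1, mul_pow]
    refine mul_le_mul_of_nonneg_left ?_ (by positivity)
    calc ((k : ℝ) / (r + 1) + 1) ^ D ≤ Real.exp ((k : ℝ) / (r + 1)) ^ D :=
          pow_le_pow_left₀ (by positivity) (Real.add_one_le_exp _) D
      _ = Real.exp (D * ((k : ℝ) / (r + 1))) := by rw [← Real.exp_nat_mul]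
      _ ≤ Real.exp (L * (6 / 5)) := by
          apply Real.exp_le_exp.2
          have h4 : ((5 * (k * D) : ℕ) : ℝ) ≤ ((6 * (L * (r + 1)) : ℕ) : ℝ) := by exact_mod_cast h
          push_cast at h4
          rw [← mul_div_assoc, div_le_iff₀ hr]
          linarith
      _ = Real.exp (6 / 5) ^ L := by rw [Real.exp_nat_mul]
      _ ≤ 4 ^ L := pow_le_pow_left₀ (Real.exp_pos _).le exp_le_four L
  have h5 : (((k + (r + D)).choose k : ℕ) : ℝ) * ((r : ℝ) + 1) ^ D ≤
      (((k + r).choose k : ℕ) * 4 ^ L) * ((r : ℝ) + 1) ^ D := by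
    calc (((k + (r + D)).choose k : ℕ) : ℝ) * ((r : ℝ) + 1) ^ D ≤
        ((k + r).choose k : ℕ) * ((k : ℝ) + r + 1) ^ D := h2
      _ ≤ ((k + r).choose k : ℕ) * (((r : ℝ) + 1) ^ D * 4 ^ L) :=
          mul_le_mul_of_nonneg_left h3 (by positivity)
      _ = _ := by ring
  have h6 := le_of_mul_le_mul_right h5 (by positivity)
  exact_mod_cast h6

/-! ### The range `m ≤ s ≤ 2 ^ (m ^ 2)` -/

theorem clog_small {m : ℕ} (hm : 257 ≤ m) : 18 * Nat.clog 2 m + 12 ≤ m := by
  set c := Nat.clog 2 m with hc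
  have h1 : 2 ^ (c - 1) < m := Nat.pow_pred_clog_lt_self one_lt_two (by omega)
  have h2 : m ≤ 2 ^ c := Nat.le_pow_clog one_lt_two m
  have h3 : 9 ≤ c := by
    by_contra hcon
    have h4 : c ≤ 8 := by omega
    have h5 : 2 ^ c ≤ 2 ^ 8 := Nat.pow_le_pow_right (by norm_num) h4
    omega
  obtain ⟨d, hd⟩ := Nat.exists_eq_add_of_le h3
  have h6 : ∀ d : ℕ, 18 * (9 + d) + 12 ≤ 2 ^ (9 + d - 1) := by
    intro d
    induction d with
    | zero => norm_num
    | succ d ih =>
      have e1 : 9 + (d + 1) - 1 = (9 + d - 1) + 1 := by omega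
      rw [e1, pow_succ]
      omega
  have h7 := h6 d
  rw [← hd] at h7
  omega

theorem regime_a {m s : ℕ} (hm : 257 ≤ m) (hms : m ≤ s) (hs : s ≤ 2 ^ (m ^ 2)) :
    ∃ (N : ℕ) (b : Fin m → ℤ), 0 < N ∧ Cov N b s ∅ ∧
      (m + s).choose m ≤ 2 ^ 26 * m ^ 15 * N := by
  have hc := clog_small hm
  set c := Nat.clog 2 m with hcdef
  have hcm : m ≤ 2 ^ c := Nat.le_pow_clog one_lt_two m
  have hcm2 : 2 ^ c ≤ 2 * m := by
    have h1 : 2 ^ (c - 1) < m := Nat.pow_pred_clog_lt_self one_lt_two (by omega)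
    have h2 : c ≠ 0 := by
      intro h0
      rw [h0] at hcm
      omega
    obtain ⟨d, hd⟩ := Nat.exists_eq_succ_of_ne_zero h2
    rw [hd] at h1 ⊢
    rw [Nat.succ_sub_one] at h1
    rw [pow_succ]
    omega
  obtain ⟨H, hH⟩ : ∃ H, H = 3 * c + 1 := ⟨_, rfl⟩
  have hHm : 6 * (H + 1) ≤ m := by omega
  obtain ⟨k, hk⟩ : ∃ k, k + 1 + H = m := ⟨m - 1 - H, by omega⟩
  obtain ⟨T, hT⟩ : ∃ T, T = s / (4 * m) + 1 := ⟨_, rfl⟩
  have hT0 : 0 < T := by
    rw [hT]
    exact Nat.succ_pos _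
  have hF2 : m * (2 * T - 1) ≤ s := by
    have h1 : 4 * m * (s / (4 * m)) ≤ s := Nat.mul_div_le s (4 * m)
    rw [hT]
    set q := s / (4 * m) with hq
    have h2 : 2 * (q + 1) - 1 = 2 * q + 1 := by omega
    rw [h2]
    rcases Nat.eq_zero_or_pos q with h0 | h0
    · rw [h0]
      simpa using hms
    · have h3 : m * 1 ≤ m * q := Nat.mul_le_mul_left _ h0
      have h4 : m * (2 * q + 1) = 2 * (m * q) + m := by ring
      have h5 : 4 * m * q = 4 * (m * q) := by ring
      rw [h4]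
      omega
  have hF3 : m + s ≤ 5 * m * T := by
    have h1 : s < 4 * m * T := by
      rw [hT]
      exact Nat.lt_mul_div_succ s (by omega)
    have h2 : m * 1 ≤ m * T := Nat.mul_le_mul_left _ hT0
    have h3 : 5 * m * T = 4 * m * T + m * T := by ring
    omega
  obtain ⟨D, hD⟩ : ∃ D, D = (T - 1) + H * (2 * T - 1) := ⟨_, rfl⟩
  have hDm : m * D ≤ (H + 1) * s := by
    have h1 : D ≤ (H + 1) * (2 * T - 1) := by
      have h2 : (H + 1) * (2 * T - 1) = H * (2 * T - 1) + (2 * T - 1) := Nat.succ_mul _ _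
      rw [hD, h2]
      omega
    calc m * D ≤ m * ((H + 1) * (2 * T - 1)) := Nat.mul_le_mul_left _ h1
      _ = (H + 1) * (m * (2 * T - 1)) := by ring
      _ ≤ (H + 1) * s := Nat.mul_le_mul_left _ hF2
  have hD6 : 6 * D ≤ s := by
    have h1 : m * (6 * D) ≤ m * s := by
      calc m * (6 * D) = 6 * (m * D) := by ring
        _ ≤ 6 * ((H + 1) * s) := Nat.mul_le_mul_left _ hDm
        _ = (6 * (H + 1)) * s := by ring
        _ ≤ m * s := Nat.mul_le_mul_right _ hHm
    exact Nat.le_of_mul_le_mul_left h1 (by omega)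
  obtain ⟨r, hr⟩ : ∃ r, r + D = s := ⟨s - D, by omega⟩
  set M := (k + r).choose r with hM
  have hM2 : 2 * r + 2 ≤ M := by
    have h1 : (2 + r).choose r ≤ M := Nat.choose_le_choose r (by omega)
    have h2 : (2 + r).choose r = (2 + r).choose 2 := Nat.choose_symm_of_eq_add (by ring)
    have h3 : (2 + r).choose 2 = (2 + r) * (2 + r - 1) / 2 := Nat.choose_two_right _
    have h4 : 2 + r - 1 = r + 1 := by omega
    rw [h2, h3, h4] at h1
    have h5 : 2 * r + 2 ≤ (2 + r) * (r + 1) / 2 := by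
      rw [Nat.le_div_iff_mul_le (by norm_num)]
      have h6 : 4 ≤ 2 + r := by omega
      nlinarith
    omega
  obtain ⟨p, hp, hp1, hp2⟩ := Nat.exists_prime_lt_and_le_two_mul (M / 2) (by omega)
  have hpM : p ≤ M := by omega
  have hMp : M ≤ 2 * p := by omega
  have hrp : r < p := by omega
  have hcond : p * T ^ H < 2 ^ 2 ^ H := by
    have h1 : p ≤ (2 ^ (m ^ 2 + 1)) ^ m := by
      calc p ≤ M := hpM
        _ = (k + r).choose k := Nat.choose_symm_of_eq_add (by ring)
        _ ≤ (k + r) ^ k := Nat.choose_le_pow _ _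
        _ ≤ (2 ^ (m ^ 2 + 1)) ^ k := by
          refine Nat.pow_le_pow_left ?_ k
          rw [pow_succ]
          omega
        _ ≤ (2 ^ (m ^ 2 + 1)) ^ m := Nat.pow_le_pow_right (by positivity) (by omega)
    have h2 : T ^ H ≤ (2 ^ (m ^ 2)) ^ H := by
      refine Nat.pow_le_pow_left ?_ H
      refine le_trans ?_ hs
      have h3 : s / (4 * m) ≤ s / 2 := Nat.div_le_div_left (by omega) (by norm_num)
      omega
    calc p * T ^ H ≤ (2 ^ (m ^ 2 + 1)) ^ m * (2 ^ (m ^ 2)) ^ H := Nat.mul_le_mul h1 h2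
      _ = 2 ^ ((m ^ 2 + 1) * m + m ^ 2 * H) := by rw [← pow_mul, ← pow_mul, ← pow_add]
      _ < 2 ^ 2 ^ H := by
        apply Nat.pow_lt_pow_right one_lt_two
        have h4 : 2 * m ^ 3 ≤ 2 ^ H := by
          have h5 : m ^ 3 ≤ (2 ^ c) ^ 3 := Nat.pow_le_pow_left hcm 3
          have h6 : 2 ^ H = 2 * (2 ^ c) ^ 3 := by
            rw [hH, ← pow_mul, ← pow_succ']
            congr 1
            ring
          omega
        refine lt_of_lt_of_le ?_ h4
        have h6 : m ^ 2 * (6 * (H + 1)) ≤ m ^ 2 * m := Nat.mul_le_mul_left _ hHm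
        have h7 : m * 1 ≤ m * m := Nat.mul_le_mul_left _ (by omega)
        have e1 : (m ^ 2 + 1) * m + m ^ 2 * H = m ^ 2 * m + m + m ^ 2 * H := by ring
        have e2 : m ^ 2 * (6 * (H + 1)) = 6 * (m ^ 2 * H) + 6 * (m * m) := by ring
        have e3 : 2 * m ^ 3 = 2 * (m ^ 2 * m) := by ring
        have h8 : 0 < m ^ 2 * m := by positivity
        rw [e1, e3]
        omega
  obtain ⟨b, hb⟩ := construct (k := k) (r := r) hp hrp hpM hT0 hcond
  have hsum : r + (T - 1) + H * (2 * T - 1) = s := by omega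
  rw [hsum] at hb
  subst hk
  refine ⟨p * T ^ H * T, b, by have := hp.pos; positivity, hb, ?_⟩
  -- the estimate
  have e1 : (k + 1 + H + s).choose (k + 1 + H) * (k + 1) ^ (H + 1) ≤
      (k + s).choose k * (k + 1 + H + s) ^ (H + 1) := by
    have h1 := ratio1 k s (H + 1)
    have h2 : k + (H + 1) = k + 1 + H := by ring
    rw [h2] at h1
    exact h1
  have e2 : k + 1 + H + s ≤ 6 * T * (k + 1) := by
    calc k + 1 + H + s ≤ 5 * (k + 1 + H) * T := hF3
      _ ≤ 6 * (k + 1) * T := Nat.mul_le_mul_right _ (by omega)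
      _ = 6 * T * (k + 1) := by ring
  have e3 : (k + 1 + H + s).choose (k + 1 + H) ≤ (k + s).choose k * (6 * T) ^ (H + 1) := by
    have h1 : (k + 1 + H + s).choose (k + 1 + H) * (k + 1) ^ (H + 1) ≤
        ((k + s).choose k * (6 * T) ^ (H + 1)) * (k + 1) ^ (H + 1) := by
      calc (k + 1 + H + s).choose (k + 1 + H) * (k + 1) ^ (H + 1) ≤
          (k + s).choose k * (k + 1 + H + s) ^ (H + 1) := e1
        _ ≤ (k + s).choose k * (6 * T * (k + 1)) ^ (H + 1) :=
            Nat.mul_le_mul_left _ (Nat.pow_le_pow_left e2 _)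
        _ = _ := by rw [mul_pow (6 * T)]; ring
    exact Nat.le_of_mul_le_mul_right h1 (by positivity)
  have e4 : (k + s).choose k ≤ (k + r).choose k * 4 ^ (H + 1) := by
    have h1 : 5 * (k * D) ≤ 6 * ((H + 1) * (r + 1)) := by
      have h2 : k * D ≤ (H + 1) * s :=
        (Nat.mul_le_mul_right D (by omega : k ≤ k + 1 + H)).trans hDm
      have h3 : 5 * s ≤ 6 * (r + 1) := by omega
      calc 5 * (k * D) ≤ 5 * ((H + 1) * s) := Nat.mul_le_mul_left _ h2
        _ = (H + 1) * (5 * s) := by ring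
        _ ≤ (H + 1) * (6 * (r + 1)) := Nat.mul_le_mul_left _ h3
        _ = 6 * ((H + 1) * (r + 1)) := by ring
    have h4 := ratio2' h1
    rw [hr] at h4
    exact h4
  have e5 : (k + r).choose k ≤ 2 * p := by
    have h1 : (k + r).choose k = (k + r).choose r := Nat.choose_symm_of_eq_add (by ring)
    rw [h1]
    exact hMp
  have e6 : 24 ^ (H + 1) ≤ 2 ^ 25 * (k + 1 + H) ^ 15 := by
    calc 24 ^ (H + 1) ≤ (2 ^ 5) ^ (H + 1) := Nat.pow_le_pow_left (by norm_num) _
      _ = 2 ^ 10 * (2 ^ c) ^ 15 := by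
        rw [hH, ← pow_mul, ← pow_mul, ← pow_add]
        congr 1
        ring
      _ ≤ 2 ^ 10 * (2 * (k + 1 + H)) ^ 15 :=
        Nat.mul_le_mul_left _ (Nat.pow_le_pow_left hcm2 15)
      _ = 2 ^ 25 * (k + 1 + H) ^ 15 := by
        rw [mul_pow]
        ring
  calc (k + 1 + H + s).choose (k + 1 + H) ≤ (k + s).choose k * (6 * T) ^ (H + 1) := e3
    _ ≤ ((2 * p) * 4 ^ (H + 1)) * (6 * T) ^ (H + 1) :=
        Nat.mul_le_mul_right _ (e4.trans (Nat.mul_le_mul_right _ e5))
    _ = 2 * 24 ^ (H + 1) * (p * T ^ H * T) := by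
        have h1 : (24 : ℕ) ^ (H + 1) = 4 ^ (H + 1) * 6 ^ (H + 1) := by
          rw [← mul_pow]
          norm_num
        rw [h1, mul_pow]
        ring
    _ ≤ 2 * (2 ^ 25 * (k + 1 + H) ^ 15) * (p * T ^ H * T) :=
        Nat.mul_le_mul_right _ (Nat.mul_le_mul_left _ e6)
    _ = 2 ^ 26 * (k + 1 + H) ^ 15 * (p * T ^ H * T) := by ring

end Pool.Agent.Lib_helper1.Fms
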