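import Pool.Agent.Lib_helper1.Fms.Tower
import Pool.Agent.Lib_helper64.FMS.Blow

/-!
# Scaling a covering with pairwise coprime factors
-/

namespace Pool.Agent.Lib_helper1.Fms

open Finset Pool.Agent.FMS

/-- Scaling: the coordinate `j` is scaled by `q j`. -/
theorem scale {N m s₀ Q : ℕ} (hN : 0 < N) {a : Fin m → ℤ} (h : Cov N a s₀ ∅) (q : Fin m → ℕ)
    (hq0 : ∀ j, 0 < q j) (hqQ : ∀ j, q j ≤ Q) (hcop : Pairwise (Function.onFun Nat.Coprime q))
    (hcN : Nat.Coprime N (∏ j, q j)) :
    N * ∏ j, q j ∈ orders m (Q * s₀ + m * (Q - 1)) := by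
  classical
  have hqN : ∀ j, Nat.Coprime (q j) N := fun j =>
    (Nat.Coprime.coprime_dvd_right (Finset.dvd_prod_of_mem q (Finset.mem_univ j)) hcN).symm
  have hn0 : 0 < N * ∏ j, q j := Nat.mul_pos hN (Finset.prod_pos fun j _ => hq0 j)
  let e1 : ZMod (N * ∏ j, q j) ≃+* ZMod N × ZMod (∏ j, q j) := ZMod.chineseRemainder hcN
  let e2 : ZMod (∏ j, q j) ≃+* ∀ j, ZMod (q j) := ZMod.prodEquivPi q hcop
  let u : Fin m → ZMod N := fun j => ((ZMod.unitOfCoprime (q j) (hqN j))⁻¹ : (ZMod N)ˣ)
  have hu : ∀ j, (q j : ZMod N) * u j = 1 := by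
    intro j
    have h1 : ((ZMod.unitOfCoprime (q j) (hqN j) : (ZMod N)ˣ) : ZMod N) = (q j : ZMod N) :=
      ZMod.coe_unitOfCoprime _ _
    simp only [u]
    rw [← h1, Units.mul_inv]
  let b : Fin m → ZMod (N * ∏ j, q j) := fun j =>
    e1.symm ((a j : ZMod N) * u j, e2.symm (Pi.single j 1))
  refine mem_orders_of_lin hn0 b fun x => ?_
  set z := e1 x with hz
  let ζ : Fin m → ℕ := fun j => (e2 z.2 j).val
  have hζ : ∀ j, ζ j ≤ Q - 1 := by
    intro j
    have : NeZero (q j) := ⟨(hq0 j).ne'⟩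
    have h1 : ζ j < q j := ZMod.val_lt _
    have h2 := hqQ j
    omega
  obtain ⟨y, hy⟩ := ZMod.intCast_surjective (z.1 - ∑ j, (ζ j : ZMod N) * ((a j : ZMod N) * u j))
  obtain ⟨l, h1, h2⟩ := h y (by simp)
  rw [← ZMod.intCast_zmod_eq_zero_iff_dvd] at h2
  push_cast at h2
  rw [hy, sub_eq_zero, sub_eq_iff_eq_add] at h2
  refine ⟨fun j => ζ j + q j * l j, ?_, ?_⟩
  · calc ∑ j, (ζ j + q j * l j) ≤ ∑ j, ((Q - 1) + Q * l j) :=
          Finset.sum_le_sum fun j _ => Nat.add_le_add (hζ j) (Nat.mul_le_mul_right _ (hqQ j))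
      _ = Q * ∑ j, l j + m * (Q - 1) := by
          rw [Finset.sum_add_distrib, Finset.mul_sum, Finset.sum_const, Finset.card_univ,
            Fintype.card_fin, smul_eq_mul]
          ring
      _ ≤ Q * s₀ + m * (Q - 1) := Nat.add_le_add_right (Nat.mul_le_mul_left _ h1) _
  · apply e1.injective
    rw [map_sum]
    have hb : ∀ j, e1 (((ζ j + q j * l j : ℕ) : ZMod (N * ∏ j, q j)) * b j) =
        (((ζ j + q j * l j : ℕ) : ZMod N) * ((a j : ZMod N) * u j),
          ((ζ j + q j * l j : ℕ) : ZMod (∏ j, q j)) * e2.symm (Pi.single j 1)) := by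
      intro j
      rw [map_mul, map_natCast]
      have h3 : e1 (b j) = ((a j : ZMod N) * u j, e2.symm (Pi.single j 1)) :=
        e1.apply_symm_apply _
      rw [h3]
      rfl
    simp only [hb]
    rw [← hz]
    apply Prod.ext
    · rw [Prod.fst_sum]
      simp only
      rw [h2, ← Finset.sum_add_distrib]
      refine Finset.sum_congr rfl fun j _ => ?_
      push_cast
      have h3 := hu j
      calc ((ζ j : ZMod N) + q j * l j) * ((a j : ZMod N) * u j) =
          (l j : ZMod N) * a j * (q j * u j) + (ζ j : ZMod N) * ((a j : ZMod N) * u j) := by ring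
        _ = _ := by rw [h3, mul_one]
    · rw [Prod.snd_sum]
      simp only
      apply e2.injective
      rw [map_sum]
      funext i
      rw [Finset.sum_apply]
      have h3 : ∀ j, e2 (((ζ j + q j * l j : ℕ) : ZMod (∏ j, q j)) * e2.symm (Pi.single j 1)) i =
          ((ζ j + q j * l j : ℕ) : ZMod (q i)) * (Pi.single j 1 : ∀ j, ZMod (q j)) i := by
        intro j
        rw [map_mul, map_natCast, RingEquiv.apply_symm_apply]
        rfl
      simp only [h3]
      rw [Finset.sum_eq_single i]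
      · rw [Pi.single_eq_same, mul_one]
        push_cast
        rw [ZMod.natCast_self, zero_mul, add_zero]
        have : NeZero (q i) := ⟨(hq0 i).ne'⟩
        exact ZMod.natCast_zmod_val _
      · intro j _ hj
        rw [Pi.single_eq_of_ne hj.symm, mul_zero]
      · intro hni
        exact absurd (Finset.mem_univ i) hni

/-- Scaling with the moduli `1 + (x + j) E`. -/
theorem scale_ap {N m s₀ : ℕ} (hN : 0 < N) {a : Fin m → ℤ} (h : Cov N a s₀ ∅) (x : ℕ) :
    N * (x * (m.factorial * N)) ^ m ≤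
      f m ((1 + (x + m) * (m.factorial * N)) * s₀ + m * ((x + m) * (m.factorial * N))) := by
  classical
  set E := m.factorial * N with hE
  set q : Fin m → ℕ := fun j => 1 + (x + (j : ℕ)) * E with hq
  have hcop : Pairwise (Function.onFun Nat.Coprime q) := fun i j hij =>
    coprime_moduli (Dvd.intro _ rfl) hij
  have hcN : Nat.Coprime N (∏ j, q j) := by
    refine Nat.Coprime.prod_right fun j _ => ?_
    have h5 : Nat.Coprime (1 + (x + (j : ℕ)) * E) E := by
      rw [Nat.coprime_add_mul_right_left]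
      exact Nat.coprime_one_left _
    exact (Nat.Coprime.coprime_dvd_right (Dvd.intro_left _ rfl) h5).symm
  have h1 := scale (Q := 1 + (x + m) * E) hN h q (fun j => by simp only [hq]; omega)
    (fun j => by
      have := j.2
      simp only [hq]
      exact Nat.add_le_add_left (Nat.mul_le_mul_right _ (by omega)) _) hcop hcN
  have h2 := le_f h1
  rw [Nat.add_sub_cancel_left] at h2
  refine le_trans (Nat.mul_le_mul_left _ ?_) h2
  calc (x * E) ^ m = ∏ _j : Fin m, x * E := by simp
    _ ≤ ∏ j : Fin m, q j := Finset.prod_le_prod' fun j _ => by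
      simp only [hq]
      nlinarith [Nat.zero_le ((j : ℕ) * E)]

/-- The trivial construction, with digits. -/
theorem digits (m b : ℕ) (hb : 0 < b) : b ^ m ∈ orders m (m * (b - 1)) := by
  have key : ∀ m : ℕ, ∃ a : Fin m → ℤ, Cov (b ^ m) a (m * (b - 1)) ∅ := by
    intro m
    induction m with
    | zero =>
      refine ⟨Fin.elim0, fun x _ => ⟨Fin.elim0, by simp, ?_⟩⟩
      simp
    | succ m ih =>
      obtain ⟨a, ha⟩ := ih
      obtain ⟨Y, h1, h2⟩ := first (T := b) (by positivity : 0 < b ^ m) hb ha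
      refine ⟨ext b 1 a, ?_⟩
      have hY : Y = ∅ := by
        rw [Finset.eq_empty_iff_forall_notMem]
        intro z hz
        have h4 := h2 (cls _ b z)
        rw [Finset.card_empty, Nat.le_zero, Finset.card_eq_zero] at h4
        have h5 : z ∈ Y.filter fun z' => cls _ b z' = cls _ b z := Finset.mem_filter.2 ⟨hz, rfl⟩
        rw [h4] at h5
        exact absurd h5 (Finset.notMem_empty _)
      rw [hY] at h1
      refine Cov.mono (s := m * (b - 1) + (b - 1)) h1 ?_
      rw [Nat.succ_mul]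
  obtain ⟨a, ha⟩ := key m
  exact ha.mem_orders (Nat.one_le_pow _ _ hb)

end Pool.Agent.Lib_helper1.Fms
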