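import Pool.Agent.Lib_helper64.FMS.Core

/-!
# Enlarging the group and squaring the missing proportion at the same time

A step: the group `ZMod N`, with `T ∣ N`, is replaced by `ZMod (N * T)`, the elements of the basis by
their multiples by `T`, and there is one new element `g ≡ 1` modulo `T`. An integer is a combination
if it is one with the multiplicity `y` or `y + T` of `g`, where `y < T` is its residue modulo `T`; for
a suitable `g` the proportion of the missing classes is squared.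
-/

namespace Pool.Agent.Lib_helper1.Fms

open Finset Pool.Agent.FMS

/-- Every integer whose class modulo `N` is not in `Y` is modulo `N` a combination of `a` with
nonnegative coefficients of sum at most `s`. -/
def Cov (N : ℕ) {k : ℕ} (a : Fin k → ℤ) (s : ℕ) (Y : Finset (ZMod N)) : Prop :=
  ∀ x : ℤ, (x : ZMod N) ∉ Y →
    ∃ l : Fin k → ℕ, ∑ i, l i ≤ s ∧ (N : ℤ) ∣ x - ∑ i, (l i : ℤ) * a i

theorem Cov.mono {N k s s' : ℕ} {a : Fin k → ℤ} {Y : Finset (ZMod N)} (h : Cov N a s Y)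
    (hs : s ≤ s') : Cov N a s' Y := by
  intro x hx
  obtain ⟨l, h1, h2⟩ := h x hx
  exact ⟨l, h1.trans hs, h2⟩

/-- A criterion for `n ∈ orders m s`. -/
theorem mem_orders_of_lin {n m s : ℕ} (hn : 1 ≤ n) (b : Fin m → ZMod n)
    (h : ∀ x : ZMod n, ∃ l : Fin m → ℕ, ∑ i, l i ≤ s ∧ ∑ i, (l i : ZMod n) * b i = x) :
    n ∈ orders m s := by
  classical
  refine ⟨hn, univ.image b, ?_, ?_⟩
  · refine Finset.card_image_le.trans ?_
    simp
  · ext x
    simp only [Set.mem_univ, iff_true]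
    obtain ⟨l, h1, h2⟩ := h x
    refine ⟨∑ i, Multiset.replicate (l i) (b i), ?_, ?_, ?_⟩
    · intro c hc
      rw [Multiset.mem_sum] at hc
      obtain ⟨i, _, hi⟩ := hc
      rw [Multiset.eq_of_mem_replicate hi]
      exact Finset.mem_image_of_mem b (Finset.mem_univ i)
    · rw [Multiset.card_sum]
      simpa using h1
    · rw [← h2, Multiset.sum_sum]
      refine Finset.sum_congr rfl fun i _ => ?_
      rw [Multiset.sum_replicate, nsmul_eq_mul]

theorem Cov.mem_orders {N k s : ℕ} (hN : 1 ≤ N) {a : Fin k → ℤ} (h : Cov N a s ∅) :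
    N ∈ orders k s := by
  have : NeZero N := ⟨by omega⟩
  refine mem_orders_of_lin hN (fun i => (a i : ZMod N)) fun x => ?_
  obtain ⟨y, rfl⟩ := ZMod.intCast_surjective x
  obtain ⟨l, h1, h2⟩ := h y (by simp)
  refine ⟨l, h1, ?_⟩
  rw [← ZMod.intCast_zmod_eq_zero_iff_dvd] at h2
  push_cast at h2
  rw [sub_eq_zero] at h2
  exact h2.symm

/-- The new basis. -/
def ext {k : ℕ} (T : ℕ) (g : ℤ) (a : Fin k → ℤ) : Fin (k + 1) → ℤ :=
  Fin.snoc (fun i => (T : ℤ) * a i) g

theorem sum_ext {k : ℕ} (T : ℕ) (g : ℤ) (a : Fin k → ℤ) (l : Fin k → ℕ) (c : ℕ) :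
    ∑ i, (((Fin.snoc l c : Fin (k + 1) → ℕ) i : ℕ) : ℤ) * ext T g a i =
      (T : ℤ) * ∑ i, (l i : ℤ) * a i + c * g := by
  rw [Fin.sum_univ_castSucc]
  simp only [ext, Fin.snoc_castSucc, Fin.snoc_last]
  rw [Finset.mul_sum]
  congr 1
  refine Finset.sum_congr rfl fun i _ => ?_
  ring

theorem sum_snoc {k : ℕ} (l : Fin k → ℕ) (c : ℕ) :
    ∑ i, (Fin.snoc l c : Fin (k + 1) → ℕ) i = ∑ i, l i + c := by
  rw [Fin.sum_univ_castSucc]
  simp

/-- Using the multiplicity `c` of the new element. -/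
theorem use {N k s T : ℕ} {a : Fin k → ℤ} {Y : Finset (ZMod N)} (h : Cov N a s Y) {g X x : ℤ}
    {c : ℕ} (hx : ((N * T : ℕ) : ℤ) ∣ X - ((T : ℤ) * x + c * g)) (hY : (x : ZMod N) ∉ Y) :
    ∃ l : Fin (k + 1) → ℕ, ∑ i, l i ≤ s + c ∧
      ((N * T : ℕ) : ℤ) ∣ X - ∑ i, (l i : ℤ) * ext T g a i := by
  obtain ⟨l, h1, h2⟩ := h x hY
  refine ⟨Fin.snoc l c, ?_, ?_⟩
  · rw [sum_snoc]
    omega
  · rw [sum_ext]
    have h3 : ((N * T : ℕ) : ℤ) ∣ (T : ℤ) * (x - ∑ i, (l i : ℤ) * a i) := by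
      push_cast
      rw [mul_comm (N : ℤ)]
      exact mul_dvd_mul_left _ h2
    have h4 := dvd_add hx h3
    have h5 : X - ((T : ℤ) * x + c * g) + (T : ℤ) * (x - ∑ i, (l i : ℤ) * a i) =
        X - ((T : ℤ) * ∑ i, (l i : ℤ) * a i + c * g) := by ring
    rwa [h5] at h4

/-- The class modulo `T` of an element of `ZMod (N * T)`. -/
def cls (N T : ℕ) : ZMod (N * T) →+* ZMod T := ZMod.castHom (Nat.dvd_mul_left T N) (ZMod T)

/-- The quotient of an integer `X` with residue `y` modulo `T`, for the element `g ≡ 1`. -/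
theorem quot_exists {T : ℕ} {g : ℤ} (hg : (T : ℤ) ∣ g - 1) (X : ℤ) (y : ℕ)
    (hy : ((y : ℤ) : ZMod T) = (X : ZMod T)) : ∃ x : ℤ, X = (T : ℤ) * x + y * g := by
  have h1 : (T : ℤ) ∣ X - y := by
    rw [← ZMod.intCast_zmod_eq_zero_iff_dvd]
    push_cast
    push_cast at hy
    rw [hy, sub_self]
  have h2 : (T : ℤ) ∣ (X - y) - y * (g - 1) := dvd_sub h1 (Dvd.dvd.mul_left hg _)
  obtain ⟨x, hx⟩ := h2
  refine ⟨x, ?_⟩
  rw [← hx]
  ring

/-- The quotient, chosen. -/
noncomputable def qt {N T : ℕ} (g : ℤ) (z : ZMod (N * T)) : ℤ :=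
  (((z.val : ℤ)) - ((cls N T z).val : ℤ) * g) / T

theorem qt_spec {N T : ℕ} (hN : 0 < N) (hT : 0 < T) {g : ℤ} (hg : (T : ℤ) ∣ g - 1)
    (z : ZMod (N * T)) : (z.val : ℤ) = (T : ℤ) * qt g z + ((cls N T z).val : ℤ) * g := by
  have : NeZero (N * T) := ⟨by positivity⟩
  have : NeZero T := ⟨by omega⟩
  obtain ⟨x, hx⟩ := quot_exists hg (z.val : ℤ) (cls N T z).val (by
    push_cast
    rw [ZMod.natCast_zmod_val]
    have h1 : cls N T z = cls N T ((z.val : ℕ) : ZMod (N * T)) := by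
      rw [ZMod.natCast_zmod_val]
    rw [h1, map_natCast])
  have h2 : (z.val : ℤ) - ((cls N T z).val : ℤ) * g = (T : ℤ) * x := by
    rw [hx]
    ring
  unfold qt
  rw [h2, Int.mul_ediv_cancel_left _ (by positivity : (T : ℤ) ≠ 0)]
  exact hx

theorem qt_inj {N T : ℕ} (hN : 0 < N) (hT : 0 < T) {g : ℤ} (hg : (T : ℤ) ∣ g - 1)
    {z z' : ZMod (N * T)} (hc : cls N T z = cls N T z')
    (hq : ((qt g z : ℤ) : ZMod N) = ((qt g z' : ℤ) : ZMod N)) : z = z' := by
  have : NeZero (N * T) := ⟨by positivity⟩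
  have h1 := qt_spec hN hT hg z
  have h2 := qt_spec hN hT hg z'
  rw [← sub_eq_zero, ← Int.cast_sub, ZMod.intCast_zmod_eq_zero_iff_dvd] at hq
  have h3 : ((N * T : ℕ) : ℤ) ∣ (z.val : ℤ) - (z'.val : ℤ) := by
    rw [h1, h2, hc]
    have h4 : (T : ℤ) * qt g z + ((cls N T z').val : ℤ) * g -
        ((T : ℤ) * qt g z' + ((cls N T z').val : ℤ) * g) = (T : ℤ) * (qt g z - qt g z') := by
      ring
    rw [h4]
    push_cast
    rw [mul_comm (N : ℤ)]
    exact mul_dvd_mul_left _ hq
  rw [← ZMod.intCast_zmod_eq_zero_iff_dvd] at h3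
  push_cast at h3
  rw [ZMod.natCast_zmod_val, ZMod.natCast_zmod_val, sub_eq_zero] at h3
  exact h3

theorem cls_intCast {N T : ℕ} (X : ℤ) : cls N T (X : ZMod (N * T)) = (X : ZMod T) :=
  map_intCast _ _

/-- Any integer is the value of its class, up to a multiple of the modulus. -/
theorem dvd_sub_val {n : ℕ} (hn : 0 < n) (X : ℤ) : (n : ℤ) ∣ X - (((X : ZMod n)).val : ℤ) := by
  have : NeZero n := ⟨by omega⟩
  rw [← ZMod.intCast_zmod_eq_zero_iff_dvd]
  push_cast
  rw [ZMod.natCast_zmod_val, sub_self]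

/-- The first extension, without squaring. -/
theorem first {N T k s : ℕ} (hN : 0 < N) (hT : 0 < T) {a : Fin k → ℤ} {Y : Finset (ZMod N)}
    (h : Cov N a s Y) :
    ∃ Y' : Finset (ZMod (N * T)), Cov (N * T) (ext T 1 a) (s + (T - 1)) Y' ∧
      ∀ r : ZMod T, (Y'.filter fun z => cls N T z = r).card ≤ Y.card := by
  classical
  have : NeZero (N * T) := ⟨by positivity⟩
  have : NeZero T := ⟨by omega⟩
  have hg : (T : ℤ) ∣ (1 : ℤ) - 1 := by simp
  refine ⟨univ.filter fun z => ((qt 1 z : ℤ) : ZMod N) ∈ Y, ?_, ?_⟩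
  · intro X hX
    rw [Finset.mem_filter, not_and] at hX
    have h1 := hX (Finset.mem_univ _)
    have hlt : (cls N T (X : ZMod (N * T))).val < T := ZMod.val_lt _
    obtain ⟨l, h2, h3⟩ := use (T := T) (g := 1) (X := X) (x := qt 1 (X : ZMod (N * T)))
      (c := (cls N T (X : ZMod (N * T))).val) h (by
        rw [← qt_spec hN hT hg]
        exact dvd_sub_val (by positivity) X) h1
    exact ⟨l, by omega, h3⟩
  · intro r
    refine Finset.card_le_card_of_injOn (fun z => ((qt 1 z : ℤ) : ZMod N)) ?_ ?_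
    · intro z hz
      simp only [Finset.coe_filter, Finset.mem_filter, Finset.mem_univ, true_and,
        Set.mem_ofPred_eq] at hz
      exact hz.1
    · intro z hz z' hz' hzz
      simp only [Finset.coe_filter, Finset.mem_filter, Finset.mem_univ, true_and,
        Set.mem_ofPred_eq] at hz hz'
      exact qt_inj hN hT hg (hz.2.trans hz'.2.symm) hzz

/-- The choice of the new element. -/
theorem exists_delta {N T w : ℕ} (hN : 0 < N) (hT : 0 < T) (Y : Finset (ZMod (N * T)))
    (hw : ∀ r : ZMod T, (Y.filter fun z => cls N T z = r).card ≤ w) :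
    ∃ δ : ℕ, (Y.filter fun x => x - ((1 + T * δ : ℕ) : ZMod (N * T)) ∈ Y).card * N ≤ T * w ^ 2 := by
  classical
  have : NeZero (N * T) := ⟨by positivity⟩
  have : NeZero T := ⟨by omega⟩
  have hYc : Y.card ≤ T * w := by
    have h1 := Finset.card_eq_sum_card_fiberwise (s := Y) (t := (univ : Finset (ZMod T)))
      (f := fun z => cls N T z) (fun _ _ => Finset.mem_univ _)
    rw [h1]
    refine (Finset.sum_le_sum fun r _ => hw r).trans ?_
    rw [Finset.sum_const, Finset.card_univ, ZMod.card, smul_eq_mul]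
  by_contra hcon
  push Not at hcon
  have h1 : ∑ δ ∈ range N, (Y.filter fun x => x - ((1 + T * δ : ℕ) : ZMod (N * T)) ∈ Y).card ≤ T * w ^ 2 := by
    simp only [Finset.card_filter]
    rw [Finset.sum_comm]
    have h2 : ∀ x ∈ Y, ∑ δ ∈ range N, (if x - ((1 + T * δ : ℕ) : ZMod (N * T)) ∈ Y then 1 else 0) ≤ w := by
      intro x _
      rw [← Finset.card_filter]
      refine le_trans ?_ (hw (cls N T x - 1))
      refine Finset.card_le_card_of_injOn (fun δ => x - ((1 + T * δ : ℕ) : ZMod (N * T))) ?_ ?_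
      · intro δ hδ
        simp only [Finset.coe_filter, Finset.mem_range, Set.mem_ofPred_eq] at hδ ⊢
        refine ⟨hδ.2, ?_⟩
        rw [map_sub, map_natCast]
        push_cast
        simp
      · intro δ hδ δ' hδ' heq
        simp only [Finset.coe_filter, Finset.mem_range, Set.mem_ofPred_eq] at hδ hδ'
        have h3 : ((1 + T * δ : ℕ) : ZMod (N * T)) = ((1 + T * δ' : ℕ) : ZMod (N * T)) :=
          sub_right_injective heq
        rw [ZMod.natCast_eq_natCast_iff] at h3
        have h4 : T * δ ≡ T * δ' [MOD N * T] := Nat.ModEq.add_left_cancel' 1 h3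
        rw [mul_comm N T] at h4
        have h5 : δ ≡ δ' [MOD N] := Nat.ModEq.mul_left_cancel' (by omega) h4
        exact Nat.ModEq.eq_of_lt_of_lt h5 hδ.1 hδ'.1
    refine (Finset.sum_le_sum h2).trans ?_
    rw [Finset.sum_const, smul_eq_mul]
    calc Y.card * w ≤ (T * w) * w := Nat.mul_le_mul_right _ hYc
      _ = T * w ^ 2 := by ring
  have h2 : ∑ _δ ∈ range N, T * w ^ 2 <
      ∑ δ ∈ range N, (Y.filter fun x => x - ((1 + T * δ : ℕ) : ZMod (N * T)) ∈ Y).card * N :=
    Finset.sum_lt_sum_of_nonempty (Finset.nonempty_range_iff.2 (by omega)) fun δ _ => hcon δ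
  rw [Finset.sum_const, Finset.card_range, smul_eq_mul, ← Finset.sum_mul] at h2
  have h3 := Nat.mul_le_mul_right N h1
  rw [mul_comm N] at h2
  omega

/-- The squaring step. -/
theorem sq_step {N T k s w : ℕ} (hN : 0 < N) (hT : 0 < T) {a : Fin k → ℤ}
    {Y : Finset (ZMod (N * T))} (h : Cov (N * T) a s Y)
    (hw : ∀ r : ZMod T, (Y.filter fun z => cls N T z = r).card ≤ w) :
    ∃ (b : Fin (k + 1) → ℤ) (w' : ℕ) (Y' : Finset (ZMod (N * T * T))),
      Cov (N * T * T) b (s + (2 * T - 1)) Y' ∧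
      (∀ r : ZMod T, (Y'.filter fun z => cls (N * T) T z = r).card ≤ w') ∧
      w' * N ≤ T * w ^ 2 := by
  classical
  have : NeZero (N * T * T) := ⟨by positivity⟩
  have : NeZero T := ⟨by omega⟩
  have hNT : 0 < N * T := by positivity
  obtain ⟨δ, hδ⟩ := exists_delta hN hT Y hw
  set g : ℤ := ((1 + T * δ : ℕ) : ℤ) with hgdef
  have hg : (T : ℤ) ∣ g - 1 := by
    rw [hgdef]
    push_cast
    exact ⟨δ, by ring⟩
  refine ⟨ext T g a, _, univ.filter fun z => ((qt g z : ℤ) : ZMod (N * T)) ∈ Y ∧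
    ((qt g z - g : ℤ) : ZMod (N * T)) ∈ Y, ?_, ?_, hδ⟩
  · intro X hX
    rw [Finset.mem_filter, not_and] at hX
    have h1 := hX (Finset.mem_univ _)
    have hlt : (cls (N * T) T (X : ZMod (N * T * T))).val < T := ZMod.val_lt _
    have hsp := qt_spec hNT hT hg (X : ZMod (N * T * T))
    have hdv := dvd_sub_val (n := N * T * T) (by positivity) X
    by_cases h2 : ((qt g (X : ZMod (N * T * T)) : ℤ) : ZMod (N * T)) ∈ Y
    · have h3 : ((qt g (X : ZMod (N * T * T)) - g : ℤ) : ZMod (N * T)) ∉ Y := fun h3 =>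
        h1 ⟨h2, h3⟩
      obtain ⟨l, h4, h5⟩ := use (T := T) (g := g) (X := X)
        (x := qt g (X : ZMod (N * T * T)) - g)
        (c := (cls (N * T) T (X : ZMod (N * T * T))).val + T) h (by
          have h6 : (T : ℤ) * (qt g (X : ZMod (N * T * T)) - g) +
              (((cls (N * T) T (X : ZMod (N * T * T))).val + T : ℕ) : ℤ) * g =
              (T : ℤ) * qt g (X : ZMod (N * T * T)) +
                ((cls (N * T) T (X : ZMod (N * T * T))).val : ℤ) * g := by
            push_cast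
            ring
          rw [h6, ← hsp]
          exact hdv) h3
      exact ⟨l, by omega, h5⟩
    · obtain ⟨l, h4, h5⟩ := use (T := T) (g := g) (X := X) (x := qt g (X : ZMod (N * T * T)))
        (c := (cls (N * T) T (X : ZMod (N * T * T))).val) h (by
          rw [← hsp]
          exact hdv) h2
      exact ⟨l, by omega, h5⟩
  · intro r
    refine Finset.card_le_card_of_injOn (fun z => ((qt g z : ℤ) : ZMod (N * T))) ?_ ?_
    · intro z hz
      simp only [Finset.coe_filter, Finset.mem_filter, Finset.mem_univ, true_and,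
        Set.mem_ofPred_eq] at hz ⊢
      refine ⟨hz.1.1, ?_⟩
      have h1 := hz.1.2
      rw [hgdef] at h1
      push_cast at h1 ⊢
      exact h1
    · intro z hz z' hz' hzz
      simp only [Finset.coe_filter, Finset.mem_filter, Finset.mem_univ, true_and,
        Set.mem_ofPred_eq] at hz hz'
      exact qt_inj hNT hT hg (hz.2.trans hz'.2.symm) hzz

/-- The tower. -/
theorem tower {N T k s : ℕ} (hN : 0 < N) (hT : 0 < T) {a : Fin k → ℤ} {Y : Finset (ZMod N)}
    (h : Cov N a s Y) (hY : Y.card * 2 ≤ N) (H : ℕ) :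
    ∃ (M : ℕ) (b : Fin (k + 1 + H) → ℤ) (w : ℕ) (Y' : Finset (ZMod (M * T))),
      M = N * T ^ H ∧ Cov (M * T) b (s + (T - 1) + H * (2 * T - 1)) Y' ∧
      (∀ r : ZMod T, (Y'.filter fun z => cls M T z = r).card ≤ w) ∧ w * 2 ^ 2 ^ H ≤ M := by
  classical
  induction H with
  | zero =>
    obtain ⟨Y', h1, h2⟩ := first hN hT h
    exact ⟨N, _, Y.card, Y', by simp, h1.mono (by omega), h2, by simpa using hY⟩
  | succ H ih =>
    obtain ⟨M, b, w, Y', hM, h1, h2, h3⟩ := ih
    have hM0 : 0 < M := by rw [hM]; positivity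
    obtain ⟨b', w', Y'', h4, h5, h6⟩ := sq_step hM0 hT h1 h2
    refine ⟨M * T, b', w', Y'', ?_, h4.mono (by ring_nf; omega), h5, ?_⟩
    · rw [hM, pow_succ]
      ring
    · have h7 : (w' * 2 ^ 2 ^ (H + 1)) * M ≤ (M * T) * M := by
        calc (w' * 2 ^ 2 ^ (H + 1)) * M = (w' * M) * 2 ^ 2 ^ (H + 1) := by ring
          _ ≤ (T * w ^ 2) * 2 ^ 2 ^ (H + 1) := Nat.mul_le_mul_right _ h6
          _ = T * (w * 2 ^ 2 ^ H) ^ 2 := by
            rw [pow_succ 2 H, pow_mul]
            ring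
          _ ≤ T * M ^ 2 := Nat.mul_le_mul_left _ (Nat.pow_le_pow_left h3 2)
          _ = (M * T) * M := by ring
      exact Nat.le_of_mul_le_mul_right h7 hM0

/-- The tower, complete. -/
theorem tower_full {N T k s : ℕ} (hN : 0 < N) (hT : 0 < T) {a : Fin k → ℤ} {Y : Finset (ZMod N)}
    (h : Cov N a s Y) (hY : Y.card * 2 ≤ N) (H : ℕ) (hH : N * T ^ H < 2 ^ 2 ^ H) :
    ∃ b : Fin (k + 1 + H) → ℤ,
      Cov (N * T ^ H * T) b (s + (T - 1) + H * (2 * T - 1)) ∅ := by
  classical
  obtain ⟨M, b, w, Y', hM, h1, h2, h3⟩ := tower hN hT h hY H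
  subst hM
  refine ⟨b, ?_⟩
  have hw : w = 0 := by
    by_contra hne
    have : 1 ≤ w := Nat.one_le_iff_ne_zero.2 hne
    have := Nat.mul_le_mul_right (2 ^ 2 ^ H) this
    omega
  have hY' : Y' = ∅ := by
    rw [Finset.eq_empty_iff_forall_notMem]
    intro z hz
    have h4 := h2 (cls _ T z)
    rw [hw, Nat.le_zero, Finset.card_eq_zero] at h4
    have h5 : z ∈ Y'.filter fun z' => cls _ T z' = cls _ T z := Finset.mem_filter.2 ⟨hz, rfl⟩
    rw [h4] at h5
    exact absurd h5 (Finset.notMem_empty _)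
  rw [← hY']
  exact h1

/-- The start: a random basis. -/
theorem start {k r p : ℕ} (hp : p.Prime) (hr : r < p) (hpM : p ≤ (k + r).choose r) :
    ∃ (a : Fin k → ℤ) (Y : Finset (ZMod p)), Cov p a r Y ∧ Y.card * 2 ≤ p := by
  classical
  have : Fact p.Prime := ⟨hp⟩
  have : NeZero p := ⟨hp.ne_zero⟩
  have hcard : Fintype.card (Sym (Option (Fin k)) r) = (k + r).choose r := by
    rw [Sym.card_sym_eq_choose, Fintype.card_option, Fintype.card_fin]
    congr 1
    omega
  obtain ⟨a, ha⟩ := exists_cover (N := p) (k := k) (cnt_injective (k := k) hr)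
  rw [hcard] at ha
  set X := univ.image fun σ : Sym (Option (Fin k)) r => lin (cnt p) a σ with hX
  refine ⟨fun i => ((a i).val : ℤ), univ \ X, ?_, ?_⟩
  · intro x hx
    have hxX : (x : ZMod p) ∈ X := by
      by_contra hcon
      exact hx (Finset.mem_sdiff.2 ⟨Finset.mem_univ _, hcon⟩)
    obtain ⟨σ, -, hσ⟩ := Finset.mem_image.1 hxX
    refine ⟨fun i => (σ : Multiset (Option (Fin k))).count (some i), ?_, ?_⟩
    · have hc := Multiset.sum_count_eq_card (s := (univ : Finset (Option (Fin k))))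
        (m := (σ : Multiset (Option (Fin k)))) (fun _ _ => Finset.mem_univ _)
      rw [Fintype.sum_option] at hc
      have hc2 : (σ : Multiset (Option (Fin k))).card = r := σ.2
      have hc3 : ∑ i : Fin k, (σ : Multiset (Option (Fin k))).count (some i) ≤ r := by omega
      exact hc3
    · rw [← ZMod.intCast_zmod_eq_zero_iff_dvd]
      push_cast
      rw [sub_eq_zero, ← hσ]
      unfold lin cnt
      refine Finset.sum_congr rfl fun i _ => ?_
      rw [ZMod.natCast_zmod_val]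
  · have h1 := card_missed ha
    have h2 : (univ \ X).card * (p + p) ≤ p * p :=
      (Nat.mul_le_mul_left _ (Nat.add_le_add_left hpM p)).trans h1
    have h3 : ((univ \ X).card * 2) * p ≤ p * p := by
      calc ((univ \ X).card * 2) * p = (univ \ X).card * (p + p) := by ring
        _ ≤ p * p := h2
    exact Nat.le_of_mul_le_mul_right h3 hp.pos

/-- The main construction: the group of order `p T ^ (H + 1)`. -/
theorem construct {k r p T H : ℕ} (hp : p.Prime) (hr : r < p) (hpM : p ≤ (k + r).choose r)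
    (hT : 0 < T) (hH : p * T ^ H < 2 ^ 2 ^ H) :
    ∃ b : Fin (k + 1 + H) → ℤ,
      Cov (p * T ^ H * T) b (r + (T - 1) + H * (2 * T - 1)) ∅ := by
  obtain ⟨a, Y, h1, h2⟩ := start hp hr hpM
  exact tower_full hp.pos hT h1 h2 H hH

end Pool.Agent.Lib_helper1.Fms
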